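import Pool.Agent.H8Z.BTE.Defs
import Pool.Agent.H910Z.TE.Cyc

set_option autoImplicit false
set_option linter.unusedSectionVars false
set_option linter.unusedSimpArgs false
set_option linter.unusedVariables false

/-! # Bounded translation equivalence: basic facts on the cyclic length -/

namespace Pool.Agent.H716Z.BTE

open Pool.Agent.Helper156.OF Pool.Agent.H910Z.TE Pool.Agent.H8Z.BTE FreeGroup

variable {α : Type} [DecidableEq α]

lemma tau_nonneg (g : FreeGroup α) : 0 ≤ tau g := by
  rw [tau_eq_len]; positivity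

lemma tau_le_conj (g h : FreeGroup α) : tau g ≤ (h * g * h⁻¹).norm := by
  rw [tau_eq_len]; exact_mod_cast len_le_conj g h

lemma tau_le_norm (g : FreeGroup α) : tau g ≤ g.norm := by
  simpa using tau_le_conj g 1

lemma conj_cyc (g : FreeGroup α) : ∃ h : FreeGroup α,
    h * g * h⁻¹ = FreeGroup.mk (reduceCyclically g.toWord) := by
  refine ⟨(FreeGroup.mk (reduceCyclically.conjugator g.toWord))⁻¹, ?_⟩
  have h1 := reduceCyclically.conj_conjugator_reduceCyclically g.toWord
  have h2 : g = FreeGroup.mk (reduceCyclically.conjugator g.toWord) *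
      FreeGroup.mk (reduceCyclically g.toWord) *
      (FreeGroup.mk (reduceCyclically.conjugator g.toWord))⁻¹ := by
    rw [FreeGroup.inv_mk, ← mk_append', ← mk_append', h1, FreeGroup.mk_toWord]
  generalize FreeGroup.mk (reduceCyclically.conjugator g.toWord) = A at h2 ⊢
  generalize FreeGroup.mk (reduceCyclically g.toWord) = C at h2 ⊢
  rw [h2]
  group

lemma exists_conj_tau (g : FreeGroup α) : ∃ h : FreeGroup α, ((h * g * h⁻¹).norm : ℤ) = tau g := by
  obtain ⟨h, hh⟩ := conj_cyc g
  refine ⟨h, le_antisymm ?_ (tau_le_conj g h)⟩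
  rw [hh, tau_eq_len]
  exact_mod_cast FreeGroup.norm_mk_le

lemma tau_conj_le (g h : FreeGroup α) : tau (h * g * h⁻¹) ≤ tau g := by
  obtain ⟨k, hk⟩ := exists_conj_tau g
  have := tau_le_conj (h * g * h⁻¹) (k * h⁻¹)
  rw [show k * h⁻¹ * (h * g * h⁻¹) * (k * h⁻¹)⁻¹ = k * g * k⁻¹ by group] at this
  omega

lemma tau_conj (g h : FreeGroup α) : tau (h * g * h⁻¹) = tau g := by
  refine le_antisymm (tau_conj_le g h) ?_
  have := tau_conj_le (h * g * h⁻¹) h⁻¹
  rwa [show h⁻¹ * (h * g * h⁻¹) * h⁻¹⁻¹ = g by group] at this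

lemma tau_isConj {g g' : FreeGroup α} (h : IsConj g g') : tau g = tau g' := by
  obtain ⟨c, hc⟩ := isConj_iff.1 h
  rw [← hc, tau_conj]

lemma tau_one : tau (1 : FreeGroup α) = 0 := by simp [tau]

lemma tau_pos {g : FreeGroup α} (hg : g ≠ 1) : 1 ≤ tau g := by
  obtain ⟨h, hh⟩ := exists_conj_tau g
  rw [← hh]
  have : (h * g * h⁻¹).norm ≠ 0 := by
    intro h0
    rw [FreeGroup.norm_eq_zero] at h0
    apply hg
    have : g = h⁻¹ * (h * g * h⁻¹) * h := by group
    rw [this, h0]; simp
  omega

lemma mem_of_cyc {l : List (Lt α)} {x : Lt α} (hx : x ∈ reduceCyclically l) : x ∈ l := by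
  rw [← reduceCyclically.conj_conjugator_reduceCyclically l]
  simp [hx]

lemma mem_of_toWord {l : List (Lt α)} {x : Lt α} (hx : x ∈ (FreeGroup.mk l).toWord) : x ∈ l := by
  rw [FreeGroup.toWord_mk] at hx
  exact (FreeGroup.Red.sublist FreeGroup.reduce.red).subset hx

lemma norm_gl (ψ : FreeGroup α →* FreeGroup α) (x : Lt α) :
    (ψ (gl x)).norm = (ψ (FreeGroup.of x.1)).norm := by
  obtain ⟨i, s⟩ := x
  cases s
  · have : ((i, false) : Lt α) = nv (i, true) := rfl
    rw [this, gl_nv, _root_.map_inv, FreeGroup.norm_inv_eq]; rfl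
  · rfl

lemma norm_hom_mk (ψ : FreeGroup α →* FreeGroup α) (B : ℤ) (l : List (Lt α))
    (h : ∀ x ∈ l, ((ψ (FreeGroup.of x.1)).norm : ℤ) ≤ B) :
    ((ψ (FreeGroup.mk l)).norm : ℤ) ≤ l.length * B := by
  induction l with
  | nil => rw [← FreeGroup.one_eq_mk, _root_.map_one]; simp
  | cons a l ih =>
    have h1 := ih fun x hx => h x (List.mem_cons_of_mem _ hx)
    have h2 := h a (by simp)
    have h3 := FreeGroup.norm_mul_le (ψ (gl a)) (ψ (FreeGroup.mk l))
    rw [norm_gl] at h3
    rw [mk_cons, _root_.map_mul, List.length_cons]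
    push_cast
    have h4 : (((ψ (gl a)) * ψ (FreeGroup.mk l)).norm : ℤ) ≤
      (ψ (FreeGroup.of a.1)).norm + (ψ (FreeGroup.mk l)).norm := by exact_mod_cast h3
    linarith

/-- short images of the letters give a short image -/
lemma tau_hom_le (ψ : FreeGroup α →* FreeGroup α) (B : ℤ) (g : FreeGroup α)
    (h : ∀ x ∈ g.toWord, ((ψ (FreeGroup.of x.1)).norm : ℤ) ≤ B) : tau (ψ g) ≤ tau g * B := by
  obtain ⟨k, hk⟩ := conj_cyc g
  have h1 := norm_hom_mk ψ B (reduceCyclically g.toWord) fun x hx => h x (mem_of_cyc hx)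
  rw [← hk, _root_.map_mul, _root_.map_mul, _root_.map_inv] at h1
  rw [tau_eq_len g]
  exact (tau_le_conj _ _).trans h1

lemma ps_append (F : Lt α → Lt α → ℤ) (a : Lt α) (l m : List (Lt α)) :
    ps F a (l ++ m) = ps F a l + ps F (l.getLastD a) m := by
  induction l generalizing a with
  | nil => simp [ps]
  | cons b l ih => simp only [List.cons_append, ps, ih, List.getLastD_cons]; ring

lemma red_last (a : Lt α) (l m : List (Lt α)) (h : IsReduced (a :: (l ++ m))) :
    IsReduced (l.getLastD a :: m) := by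
  induction l generalizing a with
  | nil => simpa using h
  | cons b l ih => rw [List.getLastD_cons]; exact ih b (ne_nv_of_red h).2

lemma red_init (a : Lt α) (l m : List (Lt α)) (h : IsReduced (a :: (l ++ m))) :
    IsReduced (a :: l) := by
  induction l generalizing a with
  | nil => simp
  | cons b l ih =>
    obtain ⟨h1, h2⟩ := ne_nv_of_red h
    exact red_cons (ih b h2) (by simpa using h1)

lemma Lam_eq (t : FreeGroup α) : ∃ e : Option (Lt α),
    (e = none → reduceCyclically t.toWord = [] ∧ ∀ F, Lam F t = 0) ∧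
    ∀ x, e = some x → IsReduced (x :: reduceCyclically t.toWord) ∧
      ∀ F, Lam F t = ps F x (reduceCyclically t.toWord) := by
  have h3 : (t * t).toWord = reduceCyclically.conjugator t.toWord ++
      (List.replicate 2 (reduceCyclically t.toWord)).flatten ++
      invRev (reduceCyclically.conjugator t.toWord) := by
    rw [← pow_two, FreeGroup.toWord_pow]
    exact reduceCyclically.reduce_flatten_replicate_succ FreeGroup.isReduced_toWord 1
  have h4 := reduceCyclically.conj_conjugator_reduceCyclically t.toWord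
  have h5 := FreeGroup.isReduced_toWord (x := t * t)
  unfold Lam
  generalize reduceCyclically.conjugator t.toWord = A at h3 h4
  generalize reduceCyclically t.toWord = C at h3 h4
  rw [h3] at h5
  rw [h3, ← h4]
  generalize invRev A = B at h5 ⊢
  cases C with
  | nil => exact ⟨none, fun _ => ⟨rfl, fun F => by simp⟩, by simp⟩
  | cons x C =>
    obtain ⟨a, l, hal, hlast⟩ : ∃ a l, A ++ x :: C = a :: l ∧ l.getLastD a = C.getLastD x := by
      cases A with
      | nil => exact ⟨x, C, rfl, rfl⟩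
      | cons a A => exact ⟨a, A ++ x :: C, rfl, by
          simp [List.getLastD_eq_getLast?, List.getLast?_append, List.getLast?_cons]⟩
    have e1 : A ++ (List.replicate 2 (x :: C)).flatten ++ B = a :: (l ++ ((x :: C) ++ B)) := by
      rw [← List.cons_append, ← hal]
      simp [List.replicate]
    have e2 : A ++ x :: C ++ B = a :: (l ++ B) := by rw [← List.cons_append, ← hal]
    rw [e1] at h5
    refine ⟨some (l.getLastD a), by simp, ?_⟩
    intro y hy
    obtain rfl : l.getLastD a = y := by simpa using hy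
    refine ⟨red_init _ _ B (red_last a l _ h5), fun F => ?_⟩
    rw [e1, e2]
    simp only [pss]
    rw [ps_append, ps_append, ps_append, List.getLastD_cons, hlast]
    ring

lemma ps_mono {F F' : Lt α → Lt α → ℤ} (h : ∀ c d, d ≠ nv c → F c d ≤ F' c d) (a : Lt α)
    (l : List (Lt α)) (hr : IsReduced (a :: l)) : ps F a l ≤ ps F' a l := by
  induction l generalizing a with
  | nil => simp [ps]
  | cons b l ih =>
    obtain ⟨h1, h2⟩ := ne_nv_of_red hr
    have := ih b h2
    have := h a b h1
    simp only [ps]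
    omega

lemma Lam_mono {F F' : Lt α → Lt α → ℤ} (h : ∀ c d, d ≠ nv c → F c d ≤ F' c d)
    (t : FreeGroup α) : Lam F t ≤ Lam F' t := by
  obtain ⟨e, h1, h2⟩ := Lam_eq t
  cases e with
  | none => rw [(h1 rfl).2, (h1 rfl).2]
  | some x =>
    obtain ⟨h3, h4⟩ := h2 x rfl
    rw [h4, h4]
    exact ps_mono h _ _ h3

lemma Lam_add (F F' : Lt α → Lt α → ℤ) (t : FreeGroup α) :
    Lam (fun c d => F c d + F' c d) t = Lam F t + Lam F' t := (LamL t).map_add F F'

lemma Lam_snd (G : Lt α → ℤ) (t : FreeGroup α) :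
    Lam (fun _ d => G d) t = ((reduceCyclically t.toWord).map G).sum := by
  have h0 : ∀ (l : List (Lt α)) (a : Lt α), ps (fun _ d => G d) a l = (l.map G).sum := by
    intro l
    induction l with
    | nil => intro a; simp [ps]
    | cons b l ih => intro a; simp [ps, ih]
  obtain ⟨e, h1, h2⟩ := Lam_eq t
  cases e with
  | none => rw [(h1 rfl).2, (h1 rfl).1]; simp
  | some x => rw [(h2 x rfl).2, h0]

/-- automorphisms which move only the letter `t` -/
def Fx (t : α) (β : MulAut (FreeGroup α)) : Prop := ∀ i, i ≠ t → β (FreeGroup.of i) = FreeGroup.of i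

lemma Fx.one (t : α) : Fx t 1 := fun _ _ => rfl

lemma Fx.mul {t : α} {β γ : MulAut (FreeGroup α)} (h1 : Fx t β) (h2 : Fx t γ) : Fx t (β * γ) := by
  intro i hi
  rw [MulAut.mul_apply, h2 i hi, h1 i hi]

lemma Fx.inv {t : α} {β : MulAut (FreeGroup α)} (h1 : Fx t β) : Fx t β⁻¹ := by
  intro i hi
  conv_lhs => rw [← h1 i hi]
  simp

lemma fx_eAut {t : α} (x a : Lt α) (hx : x.1 = t) : Fx t (eAut x a) := by
  intro i hi
  rw [← gl_true, eAut_gl]
  unfold eFun
  have h1 : ((i, true) : Lt α) ≠ x := fun h => hi (by rw [← hx, ← h])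
  have h2 : ((i, true) : Lt α) ≠ nv x := fun h => hi (by
    have := congrArg Prod.fst h
    simpa [nv, hx] using this)
  simp [h1, h2]

lemma Fx.fgl {t : α} {β : MulAut (FreeGroup α)} (h : Fx t β) {x : Lt α} (hx : x.1 ≠ t) :
    β (gl x) = gl x := by
  obtain ⟨i, s⟩ := x
  cases s
  · have : ((i, false) : Lt α) = nv (i, true) := rfl
    rw [this, gl_nv, _root_.map_inv, gl_true, h i hx]
  · exact h i hx

lemma Fx.fmk {t : α} {β : MulAut (FreeGroup α)} (h : Fx t β) (l : List (Lt α))
    (hl : ∀ x ∈ l, x.1 ≠ t) : β (FreeGroup.mk l) = FreeGroup.mk l := by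
  induction l with
  | nil => rw [← FreeGroup.one_eq_mk, _root_.map_one]
  | cons a l ih =>
    rw [mk_cons, _root_.map_mul, ih fun x hx => hl x (List.mem_cons_of_mem _ hx), h.fgl (hl a (by simp))]

lemma Fx.fix {t : α} {β : MulAut (FreeGroup α)} (h : Fx t β) (g : FreeGroup α)
    (hl : ∀ x ∈ g.toWord, x.1 ≠ t) : β g = g := by
  conv_lhs => rw [← FreeGroup.mk_toWord (x := g)]
  rw [h.fmk _ hl, FreeGroup.mk_toWord]

end Pool.Agent.H716Z.BTE
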