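import Pool.Agent.H716Z.BTE.C1

set_option autoImplicit false
set_option linter.unusedSectionVars false
set_option linter.unusedSimpArgs false
set_option linter.unusedVariables false

/-! # Bounded translation equivalence: free letters -/

namespace Pool.Agent.H716Z.BTE

open Pool.Agent.Helper156.OF Pool.Agent.H910Z.TE Pool.Agent.H8Z.BTE

variable {α : Type} [DecidableEq α]

/-- the summand of the cyclic length after an elementary move -/
def eF (a b c d : Lt α) : ℤ := (if c.1 = b.1 then 0 else 1) +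
  (if decide (c = a ∨ c = b) = decide (nv d = a ∨ nv d = b) then 0 else 1)

lemma eF_sum {t a b : α} (hta : t ≠ a) (htb : t ≠ b) (hab : a ≠ b) (c d : Lt α) (h : d ≠ nv c) :
    (1 + 1 + 1 + 1 : ℤ) + (if d.1 = a ∨ d.1 = b then 1 else 0) +
      ((if c = (t, true) then 1 else 0) + (if d = (t, false) then 1 else 0)) ≤
    eF (t, true) (a, true) c d + eF (t, true) (a, false) c d + eF (t, true) (b, true) c d +
      eF (t, true) (b, false) c d + (if c.1 = a ∨ c.1 = b then 1 else 0) := by
  obtain ⟨i, s⟩ := c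
  obtain ⟨j, r⟩ := d
  have hat := hta.symm
  have hbt := htb.symm
  have hba := hab.symm
  unfold eF
  simp only [nv, ne_eq, Prod.mk.injEq, not_and] at h ⊢
  by_cases i1 : i = t <;> by_cases i2 : i = a <;> by_cases i3 : i = b <;>
    by_cases j1 : j = t <;> by_cases j2 : j = a <;> by_cases j3 : j = b <;>
    cases s <;> cases r <;> simp_all

lemma no_letter {t a b : α} (hta : t ≠ a) (htb : t ≠ b) (hab : a ≠ b) (g : FreeGroup α) (M : ℤ)
    (hM : ∀ β, Fx t β → tau (β g) ≤ M) :
    ∃ l : List (Lt α), (∀ x ∈ l, x.1 ≠ t) ∧ IsConj g (FreeGroup.mk l) := by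
  obtain ⟨z, ⟨β, hβ, rfl⟩, hmax⟩ := Int.exists_greatest_of_bdd
    (P := fun z => ∃ β, Fx t β ∧ tau (β g) = z)
    ⟨M, fun z ⟨β, hβ, hz⟩ => hz ▸ hM β hβ⟩ ⟨_, 1, Fx.one t, rfl⟩
  set w := β g with hw
  have h1 : ∀ a' : Lt α, t ≠ a'.1 → Lam (eF (t, true) a') w ≤ tau w := by
    intro a' ha'
    have h2 := tau_eAut (t, true) a' ha' w
    have h3 := hmax _ ⟨eAut (t, true) a' * β, (fx_eAut (t, true) a' rfl).mul hβ, rfl⟩
    rw [MulAut.mul_apply, ← hw, h2] at h3
    exact h3
  have h2 := Lam_mono (eF_sum hta htb hab) w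
  simp only [Lam_add] at h2
  rw [← tau_id, Lam_ends (fun c => if c.1 = a ∨ c.1 = b then 1 else 0),
    Lam_ends (fun c => if c = (t, true) then 1 else 0),
    Lam_snd (fun c => if c = (t, true) then 1 else 0),
    Lam_snd (fun c => if c = (t, false) then 1 else 0)] at h2
  have a1 := h1 (a, true) hta
  have a2 := h1 (a, false) hta
  have a3 := h1 (b, true) htb
  have a4 := h1 (b, false) htb
  have hc : ∀ (y : Lt α) (l : List (Lt α)),
      0 ≤ (l.map (fun c => if c = y then (1 : ℤ) else 0)).sum ∧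
      (y ∈ l → 1 ≤ (l.map (fun c => if c = y then (1 : ℤ) else 0)).sum) := by
    intro y l
    induction l with
    | nil => simp
    | cons c l ih =>
      rw [List.map_cons, List.sum_cons, List.mem_cons]
      by_cases hcy : c = y
      · rw [if_pos hcy]
        exact ⟨by omega, fun _ => by omega⟩
      · rw [if_neg hcy]
        refine ⟨by omega, fun h => ?_⟩
        rcases h with h | h
        · exact absurd h.symm hcy
        · have := ih.2 h
          omega
  have h3 : ∀ x ∈ FreeGroup.reduceCyclically w.toWord, x.1 ≠ t := by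
    intro x hx hxt
    have b1 := hc (t, true) (FreeGroup.reduceCyclically w.toWord)
    have b2 := hc (t, false) (FreeGroup.reduceCyclically w.toWord)
    have hx' : x = (t, true) ∨ x = (t, false) := by
      obtain ⟨i, s⟩ := x
      simp only at hxt
      cases s <;> simp [hxt]
    rcases hx' with h | h
    · have := b1.2 (h ▸ hx)
      omega
    · have := b2.2 (h ▸ hx)
      omega
  refine ⟨_, h3, ?_⟩
  obtain ⟨k, hk⟩ := conj_cyc w
  have h4 := hβ.inv.fmk _ h3
  rw [← hk, map_mul, map_mul, map_inv, hw] at h4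
  rw [← hk, isConj_iff]
  refine ⟨β⁻¹ k, ?_⟩
  simpa using h4

/-- deleting letters -/
def kill (S : Finset α) : FreeGroup α →* FreeGroup α :=
  FreeGroup.lift (fun i => if i ∈ S then 1 else FreeGroup.of i)

lemma kill_gl (S : Finset α) (x : Lt α) : kill S (gl x) = if x.1 ∈ S then 1 else gl x := by
  obtain ⟨i, s⟩ := x
  cases s
  · have : ((i, false) : Lt α) = nv (i, true) := rfl
    rw [this, gl_nv, map_inv, gl_true]
    by_cases h : i ∈ S <;> simp [kill, nv, h]
  · rw [gl_true]
    simp [kill]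

lemma kill_mk (S : Finset α) (l : List (Lt α)) :
    kill S (FreeGroup.mk l) = FreeGroup.mk (l.filter (fun x => x.1 ∉ S)) := by
  induction l with
  | nil => rw [List.filter_nil, ← FreeGroup.one_eq_mk, map_one]
  | cons a l ih =>
    rw [mk_cons, map_mul, ih, kill_gl, List.filter_cons]
    by_cases h : a.1 ∈ S
    · simp [h]
    · simp only [h, if_false, not_false_eq_true, decide_true, if_true, mk_cons]

lemma conj_kill (S : Finset α) (g : FreeGroup α)
    (h : ∀ t ∈ S, ∃ l : List (Lt α), (∀ x ∈ l, x.1 ≠ t) ∧ IsConj g (FreeGroup.mk l)) :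
    ∃ l : List (Lt α), (∀ x ∈ l, x.1 ∉ S) ∧ IsConj g (FreeGroup.mk l) := by
  induction S using Finset.induction_on with
  | empty => exact ⟨g.toWord, by simp, by rw [FreeGroup.mk_toWord]⟩
  | insert t S ht ih =>
    obtain ⟨l, hl, hc⟩ := ih fun s hs => h s (Finset.mem_insert_of_mem hs)
    obtain ⟨m, hm, hd⟩ := h t (Finset.mem_insert_self _ _)
    have h1 := (kill {t}).map_isConj hc
    have h2 := (kill {t}).map_isConj hd
    rw [kill_mk] at h1 h2
    rw [List.filter_eq_self.2 (by simpa using hm)] at h2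
    refine ⟨l.filter (fun x => x.1 ∉ ({t} : Finset α)), ?_, hd.trans (h2.symm.trans h1)⟩
    intro x hx
    rw [List.mem_filter] at hx
    have h3 := hl x hx.1
    have h4 : x.1 ≠ t := by simpa using hx.2
    simp [h3, h4]

lemma rank_two_aux [Fintype α] {t a : α} (hta : t ≠ a) (hall : ∀ i, i = t ∨ i = a)
    (χ : MulAut (FreeGroup α)) (hw : cc (χ (gl (a, true))) (χ (gl (a, true))) = 0)
    (hmin : ∀ x y : Lt α, x.1 = t → y.1 = a → (χ (gl x)).norm ≤ (χ (gl x) * χ (gl y)).norm)
    (hnf : ∀ x y : Lt α, x.1 = t → y.1 = t →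
      cc (χ (gl x)) (χ (gl (a, true))) + cc (χ (gl (a, true))) (χ (gl y)) <
        (χ (gl (a, true))).norm) :
    (χ (gl (t, true))).norm ≤ (χ (gl (a, true))).norm := by
  by_contra hlt
  push Not at hlt
  have hinv : ∀ x : Lt α, χ (gl (nv x)) = (χ (gl x))⁻¹ := fun x => by rw [gl_nv, map_inv]
  have hne : ∀ x : Lt α, χ (gl x) ≠ 1 := by
    intro x h
    have h5 : gl x = 1 := χ.injective (by rw [h, map_one])
    have h6 := (norm_eq_one_iff (gl x)).2 ⟨x, rfl⟩
    rw [h5, FreeGroup.norm_one] at h6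
    omega
  have hnorm : ∀ x : Lt α, (χ (gl x)).norm = (χ (gl (x.1, true))).norm := fun x =>
    norm_gl (χ : FreeGroup α →* FreeGroup α) x
  have hpos : ∀ x : Lt α, 0 < (χ (gl x)).norm := fun x =>
    Nat.pos_of_ne_zero fun h => hne x (FreeGroup.norm_eq_zero.1 h)
  have hsym : ∀ x y : Lt α, cc (χ (gl (nv y))) (χ (gl (nv x))) = cc (χ (gl x)) (χ (gl y)) :=
    fun x y => by rw [hinv, hinv, cc_inv]
  have hta1 : ∀ x y : Lt α, x.1 = t → y.1 = a →
      2 * cc (χ (gl x)) (χ (gl y)) ≤ (χ (gl (a, true))).norm := by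
    intro x y hx hy
    have h1 := hmin x y hx hy
    have h2 := norm_mul_cc (χ (gl x)) (χ (gl y))
    have h3 := hnorm y
    rw [hy] at h3
    omega
  have hat1 : ∀ x y : Lt α, x.1 = a → y.1 = t →
      2 * cc (χ (gl x)) (χ (gl y)) ≤ (χ (gl (a, true))).norm := by
    intro x y hx hy
    rw [← hsym]
    exact hta1 _ _ hy hx
  have hsame : ∀ x y : Lt α, x.1 = y.1 → y ≠ nv x → y = x := by
    intro x y h1 h2
    rcases fst_eq_iff.1 h1.symm with h | h
    · exact h
    · exact absurd h h2
  have haa : ∀ x : Lt α, x.1 = a → cc (χ (gl x)) (χ (gl x)) = 0 := by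
    rintro ⟨i, s⟩ rfl
    cases s
    · exact (hsym (i, true) (i, true)).trans hw
    · exact hw
  have htt : ∀ x : Lt α, 2 * cc (χ (gl x)) (χ (gl x)) < (χ (gl x)).norm := fun x =>
    norm_lt_sq _ (hne x)
  have hnt : ∀ x : Lt α, x.1 = t → (χ (gl x)).norm = (χ (gl (t, true))).norm := by
    intro x hx
    rw [hnorm, hx]
  have hna : ∀ x : Lt α, x.1 = a → (χ (gl x)).norm = (χ (gl (a, true))).norm := by
    intro x hx
    rw [hnorm, hx]
  have hred : NRed (fun x : Lt α => χ (gl x)) := by
    refine ⟨hinv, hne, ?_, ?_⟩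
    · intro x y hxy
      rcases hall x.1 with hx | hx <;> rcases hall y.1 with hy | hy
      · rw [hsame x y (hx.trans hy.symm) hxy]
        have := htt x
        omega
      · have := hta1 x y hx hy
        have := hnt x hx
        have := hna y hy
        omega
      · have := hat1 x y hx hy
        have := hnt y hy
        have := hna x hx
        omega
      · rw [hsame x y (hx.trans hy.symm) hxy, haa x hx]
        omega
    · intro x y z hxy hyz
      have hL : y.1 = t → 2 * cc (χ (gl x)) (χ (gl y)) < (χ (gl y)).norm := by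
        intro hy
        rcases hall x.1 with hx | hx
        · rw [hsame x y (hx.trans hy.symm) hxy]
          exact htt x
        · have := hat1 x y hx hy
          have := hnt y hy
          omega
      have hR : y.1 = t → 2 * cc (χ (gl y)) (χ (gl z)) < (χ (gl y)).norm := by
        intro hy
        rcases hall z.1 with hz | hz
        · rw [hsame y z (hy.trans hz.symm) hyz]
          exact htt y
        · have := hta1 y z hy hz
          have := hnt y hy
          omega
      rcases hall y.1 with hy | hy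
      · have := hL hy
        have := hR hy
        omega
      · have e1 := hna y hy
        have e2 := hpos y
        rcases hall x.1 with hx | hx <;> rcases hall z.1 with hz | hz
        · obtain ⟨i, s⟩ := y
          simp only at hy
          subst hy
          cases s
          · have h1 := hnf (nv z) (nv x) hz hx
            have h2 := hsym x (i, false)
            have h3 := hsym (i, false) z
            have h4 : nv ((i, false) : Lt α) = (i, true) := rfl
            rw [h4] at h2 h3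
            omega
          · exact hnf x z hx hz
        · have h1 := hta1 x y hx hy
          rw [hsame y z (hy.trans hz.symm) hyz, haa y hy]
          omega
        · have h1 := hat1 y z hy hz
          rw [← hsame x y (hx.trans hy.symm) hxy, haa y hy]
          omega
        · rw [hsame y z (hy.trans hz.symm) hyz, ← hsame x y (hx.trans hy.symm) hxy, haa y hy]
          omega
  obtain ⟨σ, hσ⟩ := NRed.mem_range χ hred
  have h1 : (χ (gl (t, true))).norm = 1 := by
    rw [← hσ, toAut_gl]
    exact (norm_eq_one_iff _).2 ⟨_, rfl⟩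
  have := hpos (a, true)
  omega

lemma rank_two [Fintype α] {t a : α} (hta : t ≠ a) (hall : ∀ i, i = t ∨ i = a)
    (ψ : MulAut (FreeGroup α)) (hw : cc (ψ (gl (a, true))) (ψ (gl (a, true))) = 0) :
    ∃ β, Fx t β ∧ (ψ (β (gl (t, true)))).norm ≤ (ψ (gl (a, true))).norm := by
  classical
  have hex : ∃ n, ∃ β, Fx t β ∧ (ψ (β (gl (t, true)))).norm = n := ⟨_, 1, Fx.one t, rfl⟩
  have hle : ∀ β, Fx t β → Nat.find hex ≤ (ψ (β (gl (t, true)))).norm := fun β hβ =>
    Nat.find_min' hex ⟨β, hβ, rfl⟩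
  have hfix : ∀ β, Fx t β → ∀ y : Lt α, y.1 = a → (ψ * β) (gl y) = ψ (gl y) := by
    intro β hβ y hy
    rw [MulAut.mul_apply, hβ.fgl (by rw [hy]; exact hta.symm)]
  have hnorm : ∀ (χ : MulAut (FreeGroup α)) (x : Lt α), x.1 = t →
      (χ (gl x)).norm = (χ (gl (t, true))).norm := fun χ x hx => by
    rw [← hx]
    exact norm_gl (χ : FreeGroup α →* FreeGroup α) x
  have hmove : ∀ (χ : MulAut (FreeGroup α)) (x y : Lt α), x.1 = t → y.1 = a →
      (χ * eAut x y) (gl x) = χ (gl x) * χ (gl y) := by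
    intro χ x y hx hy
    have : x.1 ≠ y.1 := by rw [hx, hy]; exact hta
    rw [MulAut.mul_apply, eAut_gl]
    unfold eFun
    simp [this]
  have hmin : ∀ β, Fx t β → (ψ (β (gl (t, true)))).norm = Nat.find hex →
      ∀ x y : Lt α, x.1 = t → y.1 = a →
        ((ψ * β) (gl x)).norm ≤ ((ψ * β) (gl x) * (ψ * β) (gl y)).norm := by
    intro β hβ hn x y hx hy
    have h1 := hle (β * eAut x y) (hβ.mul (fx_eAut x y hx))
    rw [← hmove _ x y hx hy, hnorm _ x hx, hnorm _ x hx]
    exact hn.le.trans h1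
  have key : ∀ β, Fx t β → (ψ (β (gl (t, true)))).norm = Nat.find hex →
      (∀ x y : Lt α, x.1 = t → y.1 = t →
        cc ((ψ * β) (gl x)) (ψ (gl (a, true))) + cc (ψ (gl (a, true))) ((ψ * β) (gl y)) <
          (ψ (gl (a, true))).norm) →
      (ψ (β (gl (t, true)))).norm ≤ (ψ (gl (a, true))).norm := by
    intro β hβ hn hnf
    have h1 := rank_two_aux hta hall (ψ * β) (by rw [hfix β hβ _ rfl]; exact hw) (hmin β hβ hn)
      (by rw [hfix β hβ _ rfl]; exact hnf)
    rw [hfix β hβ (a, true) rfl] at h1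
    exact h1
  obtain ⟨β, hβ, hn⟩ := Nat.find_spec hex
  by_cases hnf : ∀ x y : Lt α, x.1 = t → y.1 = t →
      cc ((ψ * β) (gl x)) (ψ (gl (a, true))) + cc (ψ (gl (a, true))) ((ψ * β) (gl y)) <
        (ψ (gl (a, true))).norm
  · exact ⟨β, hβ, key β hβ hn hnf⟩
  by_cases hlt : (ψ (β (gl (t, true)))).norm ≤ (ψ (gl (a, true))).norm
  · exact ⟨β, hβ, hlt⟩
  push Not at hnf hlt
  obtain ⟨x, y, hx, hy, hxy⟩ := hnf
  set w := ψ (gl (a, true)) with hwdef
  have hwne : w ≠ 1 := by
    intro h
    have h5 : gl (a, true) = 1 := ψ.injective (by rw [map_one]; exact h)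
    have h6 := (norm_eq_one_iff (gl ((a, true) : Lt α))).2 ⟨_, rfl⟩
    rw [h5, FreeGroup.norm_one] at h6
    omega
  have hwpos : 0 < w.norm := Nat.pos_of_ne_zero fun h => hwne (FreeGroup.norm_eq_zero.1 h)
  have hw0 : gp w⁻¹ w = 0 := hw
  -- half bounds
  have half : ∀ γ, Fx t γ → (ψ (γ (gl (t, true)))).norm = Nat.find hex → ∀ z : Lt α, z.1 = t →
      2 * cc ((ψ * γ) (gl z)) w ≤ w.norm ∧ 2 * cc w ((ψ * γ) (gl z)) ≤ w.norm := by
    intro γ hγ hγn z hz
    constructor
    · have h1 := hmin γ hγ hγn z (a, true) hz rfl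
      rw [hfix γ hγ (a, true) rfl] at h1
      have h2 := norm_mul_cc ((ψ * γ) (gl z)) w
      rw [← hwdef] at h1
      omega
    · have h1 := hmin γ hγ hγn (nv z) (nv (a, true)) hz rfl
      rw [hfix γ hγ (nv (a, true)) rfl, gl_nv, gl_nv, map_inv, map_inv, ← hwdef] at h1
      have h2 := norm_mul_cc ((ψ * γ) (gl z))⁻¹ w⁻¹
      rw [cc_inv, FreeGroup.norm_inv_eq (x := w)] at h2
      omega
  have b1 := (half β hβ hn x hx).1
  have b2 := (half β hβ hn y hy).2
  have hyx : y = x := by
    rcases fst_eq_iff.1 (hy.trans hx.symm) with h | h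
    · exact h
    · exfalso
      rw [h, gl_nv, map_inv] at hxy b2
      have h1 := gp_ultra w⁻¹ ((ψ * β) (gl x))⁻¹ w
      have h2 : gp w⁻¹ ((ψ * β) (gl x))⁻¹ = cc w ((ψ * β) (gl x))⁻¹ := rfl
      have h3 : gp ((ψ * β) (gl x))⁻¹ w = cc ((ψ * β) (gl x)) w := rfl
      omega
  subst hyx
  set Y := (ψ * β) (gl y) with hY
  have hYn : Y.norm = (ψ (β (gl (t, true)))).norm := hnorm (ψ * β) y hy
  have hβ' : Fx t (β * eAut y (a, true)) := hβ.mul (fx_eAut y (a, true) hy)
  have hY' : (ψ * (β * eAut y (a, true))) (gl y) = Y * w := by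
    rw [← mul_assoc, hmove _ y (a, true) hy rfl, hfix β hβ (a, true) rfl]
  have c1 := norm_mul_cc Y w
  have hn' : (ψ ((β * eAut y (a, true)) (gl (t, true)))).norm = Nat.find hex := by
    have h1 := hnorm (ψ * (β * eAut y (a, true))) y hy
    rw [hY'] at h1
    have h2 : (ψ * (β * eAut y (a, true))) (gl (t, true)) =
      ψ ((β * eAut y (a, true)) (gl (t, true))) := rfl
    rw [h2] at h1
    omega
  refine ⟨_, hβ', key _ hβ' hn' ?_⟩
  intro x' y' hx' hy'
  have d1 := (half _ hβ' hn' y' hy').2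
  have d2 : cc ((ψ * (β * eAut y (a, true))) (gl x')) w = 0 := by
    have g1 : 1 ≤ gp w⁻¹ (Y * w) := by
      have h1 := gp_mul Y w
      have h2 := gp_ultra w⁻¹ Y (Y * w)
      have h3 : gp w⁻¹ Y = cc w Y := rfl
      omega
    have g2 : 1 ≤ gp w⁻¹ (Y * w)⁻¹ := by
      have h1 := gp_mul w⁻¹ Y⁻¹
      rw [cc_inv, FreeGroup.norm_inv_eq, ← mul_inv_rev] at h1
      omega
    rcases fst_eq_iff.1 (hx'.trans hy.symm) with h | h
    · rw [h, hY']
      have h1 := gp_ultra w⁻¹ (Y * w)⁻¹ w
      have h2 : gp (Y * w)⁻¹ w = cc (Y * w) w := rfl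
      omega
    · rw [h, gl_nv, map_inv, hY']
      have h1 := gp_ultra w⁻¹ (Y * w) w
      have h2 : cc (Y * w)⁻¹ w = gp (Y * w) w := by unfold cc; rw [inv_inv]
      omega
  omega

end Pool.Agent.H716Z.BTE
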