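import Pool.Agent.H716Z.BTE.C2
import Pool.Agent.H910Z.TE.Comp

set_option autoImplicit false
set_option linter.unusedSectionVars false
set_option linter.unusedSimpArgs false
set_option linter.unusedVariables false

/-! # Bounded translation equivalence: the last steps -/

namespace Pool.Agent.H716Z.BTE

open Pool.Agent.Helper156.OF Pool.Agent.H910Z.TE Pool.Agent.H8Z.BTE

lemma le_of_bddAll' {α : Type} [DecidableEq α] [Fintype α] (hKL : KLs α) (u v : FreeGroup α)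
    (hv : v ≠ 1) (h : BddAll u v) :
    ∃ C : ℕ, ∀ φ : MulAut (FreeGroup α), tau (φ u) ≤ C * tau (φ v) := by
  classical
  obtain ⟨K, C, hKC⟩ := hKL v hv
  obtain ⟨M, hM⟩ := h K
  refine ⟨M.toNat * C, fun φ => ?_⟩
  obtain ⟨θ, k, hθ, hk⟩ := hKC φ
  have hB : (0 : ℤ) ≤ C * tau (φ v) := mul_nonneg (by positivity) (tau_nonneg _)
  have hMM : M ≤ M.toNat := Int.self_le_toNat M
  set ψ : MulAut (FreeGroup α) := MulAut.conj k⁻¹ * φ * θ⁻¹ with hψ
  have hψ1 : ∀ g, ψ g = k⁻¹ * φ (θ⁻¹ g) * k := by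
    intro g
    simp [hψ]
  have hψu : tau (ψ (θ u)) = tau (φ u) := by
    rw [hψ1]
    have := tau_conj (φ u) k⁻¹
    rw [inv_inv] at this
    simpa using this
  have hFx : ∀ t, (∀ x ∈ (θ v).toWord, x.1 ≠ t) → ∀ β, Fx t β → tau (β (θ u)) ≤ M := by
    intro t ht β hβ
    have := hM (β * θ) (by rw [MulAut.mul_apply, hβ.fix _ ht]; exact hθ)
    simpa using this
  have fin : ∀ (χ : MulAut (FreeGroup α)) (g : FreeGroup α), tau (χ g) = tau (φ u) → tau g ≤ M →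
      (∀ x ∈ g.toWord, ((χ (FreeGroup.of x.1)).norm : ℤ) ≤ C * tau (φ v)) →
      tau (φ u) ≤ ((M.toNat * C : ℕ) : ℤ) * tau (φ v) := by
    intro χ g h1 h2 h3
    have h4 := tau_hom_le (χ : FreeGroup α →* FreeGroup α) _ g h3
    have h5 : tau ((χ : FreeGroup α →* FreeGroup α) g) = tau (φ u) := h1
    rw [h5] at h4
    push_cast
    calc tau (φ u) ≤ tau g * (C * tau (φ v)) := h4
      _ ≤ M.toNat * (C * tau (φ v)) := mul_le_mul_of_nonneg_right (h2.trans hMM) hB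
      _ = _ := by ring
  have hθv : θ v ≠ 1 := fun h => hv (θ.injective (by rw [h, map_one]))
  obtain ⟨x0, hx0⟩ : ∃ x, x ∈ (θ v).toWord := by
    apply List.exists_mem_of_ne_nil
    rwa [ne_eq, FreeGroup.toWord_eq_nil_iff]
  set S : Finset α := Finset.univ.filter (fun t => ∀ x ∈ (θ v).toWord, x.1 ≠ t) with hS
  have hSm : ∀ t, t ∈ S ↔ ∀ x ∈ (θ v).toWord, x.1 ≠ t := by
    intro t
    simp only [hS, Finset.mem_filter, Finset.mem_univ, true_and]
  by_cases hgood : ∀ t ∈ S, ∃ l : List (Lt α), (∀ x ∈ l, x.1 ≠ t) ∧ IsConj (θ u) (FreeGroup.mk l)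
  · obtain ⟨l, hl, hc⟩ := conj_kill S (θ u) hgood
    refine fin ψ (FreeGroup.mk l) ?_ ?_ ?_
    · rw [← hψu]
      exact (tau_isConj ((ψ : FreeGroup α →* FreeGroup α).map_isConj hc)).symm
    · rw [← tau_isConj hc]
      exact hM θ hθ
    · intro x hx
      have h1 := hl x (mem_of_toWord hx)
      rw [hSm] at h1
      push Not at h1
      obtain ⟨y, hy, hyx⟩ := h1
      rw [hψ1, ← hyx]
      exact hk y hy
  push Not at hgood
  obtain ⟨t, ht, hbad⟩ := hgood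
  rw [hSm] at ht
  have hta : t ≠ x0.1 := (ht x0 hx0).symm
  have hall : ∀ i, i = t ∨ i = x0.1 := by
    intro i
    by_contra hi
    push Not at hi
    obtain ⟨l, hl, hc⟩ := no_letter hta hi.1.symm hi.2.symm (θ u) M (hFx t ht)
    exact hbad l hl hc
  obtain ⟨c, hc⟩ := exists_conj_tau (ψ (gl (x0.1, true)))
  set ψ' : MulAut (FreeGroup α) := MulAut.conj c * ψ with hψ'
  have hψ2 : ∀ g, ψ' g = c * ψ g * c⁻¹ := fun g => by simp [hψ']
  have hw : cc (ψ' (gl (x0.1, true))) (ψ' (gl (x0.1, true))) = 0 := by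
    have h1 := norm_mul_cc (ψ' (gl (x0.1, true))) (ψ' (gl (x0.1, true)))
    have h2 := tau_conj (ψ (gl (x0.1, true))) c
    rw [← hψ2] at h2 hc
    unfold tau at h2
    unfold tau at hc
    omega
  have hwB : ((ψ' (gl (x0.1, true))).norm : ℤ) ≤ C * tau (φ v) := by
    rw [hψ2, hc]
    refine (tau_le_norm _).trans ?_
    rw [hψ1]
    exact hk x0 hx0
  obtain ⟨β, hβ, hβn⟩ := rank_two hta hall ψ' hw
  refine fin (ψ' * β) (β⁻¹ (θ u)) ?_ (hFx t ht _ hβ.inv) ?_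
  · have : (ψ' * β) (β⁻¹ (θ u)) = c * ψ (θ u) * c⁻¹ := by
      rw [← hψ2]
      simp
    rw [this, tau_conj, hψu]
  · intro x _
    rcases hall x.1 with h1 | h1
    · rw [h1]
      have h2 : (((ψ' * β) (FreeGroup.of t)).norm : ℤ) ≤ (ψ' (gl (x0.1, true))).norm := by
        exact_mod_cast hβn
      exact h2.trans hwB
    · rw [h1, MulAut.mul_apply, hβ _ hta.symm]
      exact hwB

theorem le_of_bddAll {n : ℕ} (hKL : KLs (Fin (n + 1))) (u v : FreeGroup (Fin (n + 1)))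
    (hv : v ≠ 1) (h : BddAll u v) :
    ∃ C : ℕ, ∀ φ : MulAut (FreeGroup (Fin (n + 1))), tau (φ u) ≤ C * tau (φ v) :=
  le_of_bddAll' hKL u v hv h

lemma wd_eq_one (n : ℕ) (l : List (ℕ × Bool)) :
    H8Z.BTE.wd n l = 1 ↔ FreeGroup.reduce (l.map (fun x => (x.1 % (n + 1), x.2))) = [] := by
  have h1 : Function.Injective (FreeGroup.map (Fin.val : Fin (n + 1) → ℕ)) :=
    FreeGroup.map_injective Fin.val_injective
  rw [← FreeGroup.toWord_mk, FreeGroup.toWord_eq_nil_iff]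
  have h2 : FreeGroup.map (Fin.val : Fin (n + 1) → ℕ) (H8Z.BTE.wd n l) =
      FreeGroup.mk (l.map (fun x => (x.1 % (n + 1), x.2))) := by
    unfold H8Z.BTE.wd
    rw [FreeGroup.map.mk, List.map_map]
    rfl
  rw [← h2]
  exact ⟨fun h => by rw [h, map_one], fun h => h1 (by rw [h, map_one])⟩

lemma one_prim : PrimrecRel (fun (n : ℕ) (l : List (ℕ × Bool)) => H8Z.BTE.wd n l = 1) := by
  have h1 : Primrec (fun p : ℕ × List (ℕ × Bool) =>
      p.2.map (fun x => (x.1 % (p.1 + 1), x.2))) := by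
    refine Primrec.list_map Primrec.snd ?_
    exact Primrec.pair (Primrec.nat_mod.comp (Primrec.fst.comp Primrec.snd)
      (Primrec.succ.comp (Primrec.fst.comp Primrec.fst))) (Primrec.snd.comp Primrec.snd)
  have h2 : PrimrecPred (fun p : ℕ × List (ℕ × Bool) =>
      FreeGroup.reduce (p.2.map (fun x => (x.1 % (p.1 + 1), x.2))) = []) :=
    Primrec.eq.comp (reduce_prim.comp h1) (Primrec.const [])
  exact h2.of_eq fun p => (wd_eq_one p.1 p.2).symm

lemma bte_iff {n : ℕ} (hKL : KLs (Fin (n + 1)))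
    (hB1 : ∀ u v : FreeGroup (Fin (n + 1)), Bdd u v → BddAll u v) (u v : FreeGroup (Fin (n + 1))) :
    (∃ C : ℕ, ∀ φ : MulAut (FreeGroup (Fin (n + 1))),
      tau (φ u) ≤ C * tau (φ v) ∧ tau (φ v) ≤ C * tau (φ u)) ↔
    ((u = 1 ∧ v = 1) ∨ (¬ u = 1 ∧ ¬ v = 1 ∧ Bdd u v ∧ Bdd v u)) := by
  constructor
  · rintro ⟨C, hC⟩
    have h1 := hC 1
    simp only [MulAut.one_apply] at h1
    have bd : ∀ a b : FreeGroup (Fin (n + 1)),
        (∀ φ : MulAut (FreeGroup (Fin (n + 1))), tau (φ a) ≤ C * tau (φ b)) → Bdd a b := by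
      intro a b hab
      refine ⟨C * b.norm, fun θ hθ => (hab θ).trans ?_⟩
      refine mul_le_mul_of_nonneg_left ((tau_le_norm _).trans ?_) (by positivity)
      exact_mod_cast hθ
    by_cases hu : u = 1
    · left
      refine ⟨hu, ?_⟩
      by_contra hv
      have := tau_pos hv
      rw [hu, tau_one] at h1
      omega
    · right
      refine ⟨hu, fun hv => ?_, bd u v fun φ => (hC φ).1, bd v u fun φ => (hC φ).2⟩
      have := tau_pos hu
      rw [hv, tau_one] at h1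
      omega
  · rintro (⟨rfl, rfl⟩ | ⟨hu, hv, h1, h2⟩)
    · exact ⟨0, fun φ => by simp [tau_one]⟩
    · obtain ⟨C1, hC1⟩ := le_of_bddAll hKL u v hv (hB1 u v h1)
      obtain ⟨C2, hC2⟩ := le_of_bddAll hKL v u hu (hB1 v u h2)
      refine ⟨C1 + C2, fun φ => ⟨(hC1 φ).trans ?_, (hC2 φ).trans ?_⟩⟩
      · refine mul_le_mul_of_nonneg_right ?_ (tau_nonneg _)
        push_cast
        omega
      · refine mul_le_mul_of_nonneg_right ?_ (tau_nonneg _)
        push_cast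
        omega

theorem final (hKL : ∀ n, KLs (Fin (n + 1)))
    (hB1 : ∀ (n : ℕ) (u v : FreeGroup (Fin (n + 1))), Bdd u v → BddAll u v)
    (hB2 : ComputablePred (fun p : ℕ × List (ℕ × Bool) × List (ℕ × Bool) =>
      Bdd (H8Z.BTE.wd p.1 p.2.1) (H8Z.BTE.wd p.1 p.2.2))) :
    ComputablePred (fun p : ℕ × List (ℕ × Bool) × List (ℕ × Bool) =>
      ∃ C : ℕ, ∀ φ : FreeGroup (Fin (p.1 + 1)) ≃* FreeGroup (Fin (p.1 + 1)),
        sInf (Set.range (fun g : FreeGroup (Fin (p.1 + 1)) =>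
            FreeGroup.norm (g * φ (FreeGroup.mk (p.2.1.map (fun x =>
              ((⟨x.1 % (p.1 + 1), Nat.mod_lt x.1 (Nat.succ_pos p.1)⟩ : Fin (p.1 + 1)), x.2)))) * g⁻¹)))
          ≤ C * sInf (Set.range (fun g : FreeGroup (Fin (p.1 + 1)) =>
            FreeGroup.norm (g * φ (FreeGroup.mk (p.2.2.map (fun x =>
              ((⟨x.1 % (p.1 + 1), Nat.mod_lt x.1 (Nat.succ_pos p.1)⟩ : Fin (p.1 + 1)), x.2)))) * g⁻¹)))
        ∧
        sInf (Set.range (fun g : FreeGroup (Fin (p.1 + 1)) =>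
            FreeGroup.norm (g * φ (FreeGroup.mk (p.2.2.map (fun x =>
              ((⟨x.1 % (p.1 + 1), Nat.mod_lt x.1 (Nat.succ_pos p.1)⟩ : Fin (p.1 + 1)), x.2)))) * g⁻¹)))
          ≤ C * sInf (Set.range (fun g : FreeGroup (Fin (p.1 + 1)) =>
            FreeGroup.norm (g * φ (FreeGroup.mk (p.2.1.map (fun x =>
              ((⟨x.1 % (p.1 + 1), Nat.mod_lt x.1 (Nat.succ_pos p.1)⟩ : Fin (p.1 + 1)), x.2)))) * g⁻¹)))) := by
  classical
  have p1 : PrimrecPred (fun p : ℕ × List (ℕ × Bool) × List (ℕ × Bool) => H8Z.BTE.wd p.1 p.2.1 = 1) :=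
    one_prim.comp Primrec.fst (Primrec.fst.comp Primrec.snd)
  have p2 : PrimrecPred (fun p : ℕ × List (ℕ × Bool) × List (ℕ × Bool) => H8Z.BTE.wd p.1 p.2.2 = 1) :=
    one_prim.comp Primrec.fst (Primrec.snd.comp Primrec.snd)
  obtain ⟨f, hf, hf'⟩ := ComputablePred.computable_iff.1 hB2
  have sw : Computable (fun p : ℕ × List (ℕ × Bool) × List (ℕ × Bool) =>
      ((p.1, p.2.2, p.2.1) : ℕ × List (ℕ × Bool) × List (ℕ × Bool))) :=
    (Primrec.pair Primrec.fst (Primrec.pair (Primrec.snd.comp Primrec.snd)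
      (Primrec.fst.comp Primrec.snd))).to_comp
  have c1 := p1.decide.to_comp
  have c2 := p2.decide.to_comp
  refine ComputablePred.computable_iff.2 ⟨fun p =>
    cond (decide (H8Z.BTE.wd p.1 p.2.1 = 1)) (decide (H8Z.BTE.wd p.1 p.2.2 = 1))
      (cond (decide (H8Z.BTE.wd p.1 p.2.2 = 1)) false (cond (f p) (f (p.1, p.2.2, p.2.1)) false)),
    Computable.cond c1 c2 (Computable.cond c2 (Computable.const false)
      (Computable.cond hf (hf.comp sw) (Computable.const false))), ?_⟩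
  funext p
  apply propext
  have e1 : Bdd (H8Z.BTE.wd p.1 p.2.1) (H8Z.BTE.wd p.1 p.2.2) ↔ f p = true := by
    rw [congrFun hf' p]
  have e2 : Bdd (H8Z.BTE.wd p.1 p.2.2) (H8Z.BTE.wd p.1 p.2.1) ↔ f (p.1, p.2.2, p.2.1) = true := by
    exact iff_of_eq (congrFun hf' (p.1, p.2.2, p.2.1))
  have e3 := bte_iff (hKL p.1) (hB1 p.1) (H8Z.BTE.wd p.1 p.2.1) (H8Z.BTE.wd p.1 p.2.2)
  have e4 : ∀ g : FreeGroup (Fin (p.1 + 1)),
      ((sInf (Set.range (fun h : FreeGroup (Fin (p.1 + 1)) => FreeGroup.norm (h * g * h⁻¹))) : ℕ) : ℤ)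
        = tau g := fun g => iInf_conj g
  refine Iff.trans ?_ (e3.trans ?_)
  · refine exists_congr fun C => forall_congr' fun φ => ?_
    rw [← e4, ← e4]
    unfold H8Z.BTE.wd
    norm_cast
  · rw [e1, e2]
    by_cases h1 : H8Z.BTE.wd p.1 p.2.1 = 1 <;> by_cases h2 : H8Z.BTE.wd p.1 p.2.2 = 1 <;>
      by_cases h3 : f p = true <;> simp [h1, h2, h3]

end Pool.Agent.H716Z.BTE
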